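import Pool.Agent.Lib.MP_94c361_co_P.Pow
import Pool.Agent.Lib.MP_94c361_co_H.Abs

/-!
# MP_94c361_co: the fourth moment, union of two random Hamiltonian cycles
-/

set_option autoImplicit false

open scoped BigOperators
open Pool.Agent.MP94h

namespace Pool.Agent.MP94p

theorem card_full {n : ℕ} (hn : 3 ≤ n) : (full n).card = (n - 1).factorial := by
  unfold full
  rw [Equiv.Perm.card_of_cycleType_singleton (by omega) (by simp)]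
  simp

/-- The fourth moment. -/
theorem fourth_of (hloc : ∀ z w : (Fin 4 → Bool) → ℂ,
      ‖locm 4 z w‖ ≤ 21 / 8 * (∑ c, ‖z c‖ ^ 2) * (∑ c, ‖w c‖ ^ 2)) (n : ℕ) (hn : 3 ≤ n) :
    ((∑ σ ∈ full n, ∑ τ ∈ full n, (hc σ τ) ^ 4 : ℤ) : ℝ) ≤
      ((n : ℝ) + 1) ^ 34 * (21 / 8) ^ n * ((full n).card : ℝ) ^ 2 := by
  have hF : (n.factorial : ℝ) = n * ((full n).card : ℝ) := by
    rw [card_full hn, ← Nat.mul_factorial_pred (show n ≠ 0 by omega)]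
    push_cast
    rfl
  have h1 := upper_pow (m := 4) (by decide) (21 / 8) (by norm_num) hloc n
  have h2 : ∑ σ ∈ full n, ∑ τ ∈ full n, (hc σ τ) ^ 4 ≤
      ∑ σ : Equiv.Perm (Fin n), ∑ τ : Equiv.Perm (Fin n), (hc σ τ) ^ 4 := by
    refine le_trans (Finset.sum_le_sum fun σ _ =>
      Finset.sum_le_sum_of_subset_of_nonneg (Finset.subset_univ _) fun τ _ _ =>
        Even.pow_nonneg (by decide) _) ?_
    exact Finset.sum_le_sum_of_subset_of_nonneg (Finset.subset_univ _)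
      fun σ _ _ => Finset.sum_nonneg fun τ _ => Even.pow_nonneg (by decide) _
  have h3 : ((∑ σ ∈ full n, ∑ τ ∈ full n, (hc σ τ) ^ 4 : ℤ) : ℝ) ≤
      ((∑ σ : Equiv.Perm (Fin n), ∑ τ : Equiv.Perm (Fin n), (hc σ τ) ^ 4 : ℤ) : ℝ) := by
    exact_mod_cast h2
  refine (h3.trans h1).trans ?_
  rw [hF]
  have h4 : (n : ℝ) ^ 2 ≤ ((n : ℝ) + 1) ^ 2 := by
    have : (0 : ℝ) ≤ n := Nat.cast_nonneg n
    nlinarith
  calc (21 / 8 : ℝ) ^ n * ((n : ℝ) * ((full n).card : ℝ) * ((n : ℝ) + 1) ^ 2 ^ 4) ^ 2 =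
      (n : ℝ) ^ 2 * ((((n : ℝ) + 1) ^ 32 * (21 / 8) ^ n) * ((full n).card : ℝ) ^ 2) := by ring
    _ ≤ ((n : ℝ) + 1) ^ 2 * ((((n : ℝ) + 1) ^ 32 * (21 / 8) ^ n) * ((full n).card : ℝ) ^ 2) :=
      mul_le_mul_of_nonneg_right h4 (by positivity)
    _ = _ := by ring

/-- Probability from the second and the fourth moment. -/
theorem prob_of {n : ℕ} (hn : 3 ≤ n) (a b : ℝ) (ha : 0 ≤ a) (hb : 0 < b)
    (h2 : a * ((full n).card : ℝ) ^ 2 ≤ ((∑ σ ∈ full n, ∑ τ ∈ full n, (hc σ τ) ^ 2 : ℤ) : ℝ))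
    (h4 : ((∑ σ ∈ full n, ∑ τ ∈ full n, (hc σ τ) ^ 4 : ℤ) : ℝ) ≤
      b * ((full n).card : ℝ) ^ 2) :
    a ^ 2 / b ≤ ((((full n) ×ˢ (full n)).filter (fun p => hc p.1 p.2 ≠ 0)).card : ℝ) /
      ((full n).card : ℝ) ^ 2 := by
  have hpos : (0 : ℝ) < ((full n).card : ℝ) ^ 2 := by
    rw [card_full hn]
    positivity
  set S := ((full n) ×ˢ (full n)).filter (fun p => hc p.1 p.2 ≠ 0) with hS
  have e2 : ((∑ σ ∈ full n, ∑ τ ∈ full n, (hc σ τ) ^ 2 : ℤ) : ℝ) =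
      ∑ p ∈ S, ((hc p.1 p.2 : ℤ) : ℝ) ^ 2 := by
    rw [← Finset.sum_product', hS, Finset.sum_filter]
    push_cast
    refine Finset.sum_congr rfl fun p _ => ?_
    by_cases h : hc p.1 p.2 ≠ 0
    · rw [if_pos h]
    · rw [if_neg h, not_not.1 h]
      simp
  have e4 : ((∑ σ ∈ full n, ∑ τ ∈ full n, (hc σ τ) ^ 4 : ℤ) : ℝ) =
      ∑ p ∈ S, (((hc p.1 p.2 : ℤ) : ℝ) ^ 2) ^ 2 := by
    rw [← Finset.sum_product', hS, Finset.sum_filter]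
    push_cast
    refine Finset.sum_congr rfl fun p _ => ?_
    by_cases h : hc p.1 p.2 ≠ 0
    · rw [if_pos h]
      ring
    · rw [if_neg h, not_not.1 h]
      simp
  have h5 : (∑ p ∈ S, ((hc p.1 p.2 : ℤ) : ℝ) ^ 2) ^ 2 ≤
      (S.card : ℝ) * ∑ p ∈ S, (((hc p.1 p.2 : ℤ) : ℝ) ^ 2) ^ 2 := sq_sum_le_card_mul_sum_sq
  rw [← e2, ← e4] at h5
  have h6 : (a * ((full n).card : ℝ) ^ 2) ^ 2 ≤
      (S.card : ℝ) * (b * ((full n).card : ℝ) ^ 2) :=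
    (pow_le_pow_left₀ (by positivity) h2 2).trans
      (h5.trans (mul_le_mul_of_nonneg_left h4 (Nat.cast_nonneg _)))
  rw [div_le_div_iff₀ hb hpos]
  refine le_of_mul_le_mul_right ?_ hpos
  calc a ^ 2 * ((full n).card : ℝ) ^ 2 * ((full n).card : ℝ) ^ 2 =
      (a * ((full n).card : ℝ) ^ 2) ^ 2 := by ring
    _ ≤ (S.card : ℝ) * (b * ((full n).card : ℝ) ^ 2) := h6
    _ = (S.card : ℝ) * b * ((full n).card : ℝ) ^ 2 := by ring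

/-- The probability, from the local bound. -/
theorem prob_four (hloc : ∀ z w : (Fin 4 → Bool) → ℂ,
      ‖locm 4 z w‖ ≤ 21 / 8 * (∑ c, ‖z c‖ ^ 2) * (∑ c, ‖w c‖ ^ 2)) (n : ℕ) (hn : 3 ≤ n)
    (hlow : (3 / 2 : ℝ) ^ n * ((full n).card : ℝ) ^ 2 ≤
      ((∑ σ ∈ full n, ∑ τ ∈ full n, (hc σ τ) ^ 2 : ℤ) : ℝ)) :
    (6 / 7 : ℝ) ^ n / ((n : ℝ) + 1) ^ 34 ≤
      ((((full n) ×ˢ (full n)).filter (fun p => hc p.1 p.2 ≠ 0)).card : ℝ) /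
        ((full n).card : ℝ) ^ 2 := by
  have h1 := prob_of hn ((3 / 2 : ℝ) ^ n) (((n : ℝ) + 1) ^ 34 * (21 / 8) ^ n) (by positivity)
    (by positivity) hlow (fourth_of hloc n hn)
  refine le_trans (le_of_eq ?_) h1
  have h2 : ((3 / 2 : ℝ) ^ n) ^ 2 = (6 / 7 : ℝ) ^ n * (21 / 8) ^ n := by
    rw [← pow_mul, mul_comm n 2, pow_mul, ← mul_pow]
    norm_num
  rw [h2]
  have h3 : (0 : ℝ) < (21 / 8 : ℝ) ^ n := by positivity
  have h4 : (0 : ℝ) < ((n : ℝ) + 1) ^ 34 := by positivity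
  field_simp

end Pool.Agent.MP94p
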