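import Pool.Agent.Lib.MP_94c361_co_U.Gauss
import Pool.Agent.Lib.MP_94c361_co_U.Defs
import Pool.Agent.Lib.MP_94c361_co_H.Gram

/-!
# MP_94c361_co: upper bounds for the even moments over all pairs of permutations
-/

set_option autoImplicit false

open scoped BigOperators
open Pool.Agent.MP94h MeasureTheory

namespace Pool.Agent.MP94p

open Pool.Agent.MP94u (bi sb exists_gauss)

section labels

variable {L : Type} [Fintype L] [DecidableEq L]

/-- The number of positions with label `c`. -/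
def cnt {n : ℕ} (T : Fin n → L) (c : L) : ℕ :=
  (Finset.univ.filter (fun u => T u = c)).card

omit [Fintype L] in
theorem cnt_eq_card {n : ℕ} (T : Fin n → L) (c : L) :
    cnt T c = Fintype.card {u // T u = c} := by
  rw [cnt, Fintype.card_subtype]

omit [Fintype L] in
theorem cnt_of_perm {n : ℕ} {T S : Fin n → L} {σ : Equiv.Perm (Fin n)}
    (h : ∀ u, S (σ u) = T u) (c : L) : cnt T c = cnt S c := by
  rw [cnt_eq_card, cnt_eq_card]
  refine Fintype.card_congr (σ.subtypeEquiv ?_)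
  intro u
  rw [h u]

omit [Fintype L] in
theorem exists_perm {n : ℕ} {T S : Fin n → L} (h : ∀ c, cnt T c = cnt S c) :
    ∃ σ : Equiv.Perm (Fin n), ∀ u, S (σ u) = T u := by
  have e : ∀ c, Fintype.card {u // T u = c} = Fintype.card {v // S v = c} := by
    intro c
    rw [← cnt_eq_card, ← cnt_eq_card, h c]
  refine ⟨(Equiv.sigmaFiberEquiv T).symm.trans
    ((Equiv.sigmaCongrRight fun c => Fintype.equivOfCardEq (e c)).trans
      (Equiv.sigmaFiberEquiv S)), ?_⟩
  intro u
  exact (Fintype.equivOfCardEq (e (T u)) ⟨u, rfl⟩).2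

theorem count_perm {n : ℕ} (T S : Fin n → L) :
    (Finset.univ.filter (fun σ : Equiv.Perm (Fin n) => ∀ u, S (σ u) = T u)).card =
      if (∀ c, cnt T c = cnt S c) then ∏ c, (cnt T c).factorial else 0 := by
  by_cases h : ∀ c, cnt T c = cnt S c
  · rw [if_pos h]
    obtain ⟨τ, hτ⟩ := exists_perm h
    have a1 : ∀ v, τ (τ⁻¹ v) = v := fun v => τ.apply_symm_apply v
    have a2 : ∀ u, τ⁻¹ (τ u) = u := fun u => τ.symm_apply_apply u
    have h1 : (Finset.univ.filter (fun σ : Equiv.Perm (Fin n) => ∀ u, S (σ u) = T u)).card =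
        Fintype.card {g : Equiv.Perm (Fin n) // S ∘ g = S} := by
      rw [Fintype.card_subtype]
      refine Finset.card_equiv (Equiv.mulRight τ⁻¹) ?_
      intro σ
      simp only [Finset.mem_filter, Finset.mem_univ, true_and, Equiv.coe_mulRight]
      constructor
      · intro hσ
        funext v
        have h2 := hσ (τ⁻¹ v)
        have h3 := hτ (τ⁻¹ v)
        simp only [Function.comp_apply, Equiv.Perm.mul_apply]
        rw [h2, ← h3, a1]
      · intro hσ u
        have h2 := congrFun hσ (τ u)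
        simp only [Function.comp_apply, Equiv.Perm.mul_apply, a2] at h2
        rw [h2, hτ]
    rw [h1, DomMulAct.stabilizer_card]
    refine Finset.prod_congr rfl ?_
    intro c _
    rw [← cnt_eq_card, h c]
  · rw [if_neg h, Finset.card_eq_zero, Finset.filter_eq_empty_iff]
    intro σ _ hσ
    exact h (cnt_of_perm hσ)

theorem sum_fact (n : ℕ) : ∑ T : Fin n → L, ∏ c, (cnt T c).factorial ≤
    n.factorial * (n + 1) ^ Fintype.card L := by
  classical
  have hle : ∀ (T : Fin n → L) (c : L), cnt T c < n + 1 := by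
    intro T c
    have h := Finset.card_le_univ (Finset.univ.filter (fun u => T u = c))
    rw [Fintype.card_fin] at h
    exact Nat.lt_succ_of_le h
  let f : (Fin n → L) → (L → Fin (n + 1)) := fun T c => ⟨cnt T c, hle T c⟩
  have hf : ∀ T S : Fin n → L, f S = f T ↔ ∀ c, cnt T c = cnt S c := by
    intro T S
    constructor
    · intro h c
      have h1 := congrFun h c
      simp only [f, Fin.mk.injEq] at h1
      exact h1.symm
    · intro h
      funext c
      simp only [f, Fin.mk.injEq]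
      exact (h c).symm
  have hfib : ∀ T : Fin n → L,
      ∑ S ∈ Finset.univ.filter (fun S => f S = f T), ∏ c, (cnt S c).factorial = n.factorial := by
    intro T
    have h1 : ∑ S ∈ Finset.univ.filter (fun S => f S = f T), ∏ c, (cnt S c).factorial =
        ∑ S : Fin n → L,
          (Finset.univ.filter (fun σ : Equiv.Perm (Fin n) => ∀ u, S (σ u) = T u)).card := by
      rw [Finset.sum_filter]
      apply Finset.sum_congr rfl
      intro S _
      rw [count_perm T S]
      by_cases h : f S = f T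
      · rw [if_pos h, if_pos ((hf T S).1 h)]
        apply Finset.prod_congr rfl
        intro c _
        rw [(hf T S).1 h c]
      · rw [if_neg h, if_neg (fun h' => h ((hf T S).2 h'))]
    rw [h1]
    have h2 := Finset.sum_card_bipartiteAbove_eq_sum_card_bipartiteBelow
      (s := (Finset.univ : Finset (Fin n → L)))
      (t := (Finset.univ : Finset (Equiv.Perm (Fin n))))
      (fun (S : Fin n → L) (σ : Equiv.Perm (Fin n)) => ∀ u, S (σ u) = T u)
    simp only [Finset.bipartiteAbove, Finset.bipartiteBelow] at h2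
    rw [h2]
    have h3 : ∀ σ : Equiv.Perm (Fin n),
        (Finset.univ.filter (fun S : Fin n → L => ∀ u, S (σ u) = T u)).card = 1 := by
      intro σ
      rw [Finset.card_eq_one]
      refine ⟨fun u => T (σ.symm u), ?_⟩
      ext S
      simp only [Finset.mem_filter, Finset.mem_univ, true_and, Finset.mem_singleton]
      constructor
      · intro h
        funext u
        have h4 := h (σ.symm u)
        rw [Equiv.apply_symm_apply] at h4
        exact h4
      · rintro rfl u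
        change T (σ.symm (σ u)) = T u
        rw [Equiv.symm_apply_apply]
    rw [Finset.sum_congr rfl (fun σ _ => h3 σ), Finset.sum_const, smul_eq_mul, mul_one,
      Finset.card_univ, Fintype.card_perm, Fintype.card_fin]
  rw [← Finset.sum_fiberwise (Finset.univ : Finset (Fin n → L)) f]
  calc ∑ m : (L → Fin (n + 1)),
        ∑ S ∈ Finset.univ.filter (fun S => f S = m), ∏ c, (cnt S c).factorial
      ≤ ∑ _m : (L → Fin (n + 1)), n.factorial := by
        apply Finset.sum_le_sum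
        intro m _
        rcases (Finset.univ.filter
          (fun S : Fin n → L => f S = m)).eq_empty_or_nonempty with h | ⟨T, hT⟩
        · rw [h, Finset.sum_empty]
          exact Nat.zero_le _
        · simp only [Finset.mem_filter, Finset.mem_univ, true_and] at hT
          rw [← hT]
          exact le_of_eq (hfib T)
    _ = n.factorial * (n + 1) ^ Fintype.card L := by
        rw [Finset.sum_const, smul_eq_mul, Finset.card_univ, Fintype.card_fun, Fintype.card_fin,
          mul_comm]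

/-- The monomial. -/
noncomputable def mono {n : ℕ} (T S : Fin n → L) (z : L → ℂ) : ℂ :=
  (∏ u, z (T u)) * ∏ u, (starRingEnd ℂ) (z (S u))

theorem prod_fib {n : ℕ} (T : Fin n → L) (f : L → ℂ) :
    ∏ u, f (T u) = ∏ c, f c ^ cnt T c := by
  rw [← Finset.prod_fiberwise (s := Finset.univ) (g := T)]
  refine Finset.prod_congr rfl fun c _ => ?_
  have h1 : ∀ u ∈ Finset.univ.filter (fun u => T u = c), f (T u) = f c := by
    intro u hu
    rw [(Finset.mem_filter.1 hu).2]
  rw [Finset.prod_congr rfl h1, Finset.prod_const]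
  rfl

theorem mono_eq {n : ℕ} (T S : Fin n → L) (z : L → ℂ) :
    mono T S z = ∏ c, (z c ^ cnt T c * ((starRingEnd ℂ) (z c)) ^ cnt S c) := by
  unfold mono
  rw [Finset.prod_mul_distrib, prod_fib T (fun c => z c),
    prod_fib S (fun c => (starRingEnd ℂ) (z c))]

section gauss

variable {μ : Measure ℂ} [IsProbabilityMeasure μ]
  (hI : ∀ a b : ℕ, Integrable (fun z : ℂ => z ^ a * ((starRingEnd ℂ) z) ^ b) μ)
  (hM : ∀ a b : ℕ, ∫ z : ℂ, z ^ a * ((starRingEnd ℂ) z) ^ b ∂μ =
      if a = b then (a.factorial : ℂ) else 0)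

include hI in
theorem mono_int {n : ℕ} (T S : Fin n → L) :
    Integrable (mono T S) (Measure.pi (fun _ : L => μ)) := by
  have h1 : mono T S = fun z : L → ℂ =>
      ∏ c, (fun (x : ℂ) => x ^ cnt T c * ((starRingEnd ℂ) x) ^ cnt S c) (z c) := by
    funext z
    exact mono_eq T S z
  rw [h1]
  exact Integrable.fintype_prod (fun c => hI (cnt T c) (cnt S c))

include hM in
theorem mono_integral {n : ℕ} (T S : Fin n → L) :
    ∫ z, mono T S z ∂(Measure.pi (fun _ : L => μ)) =
      ((Finset.univ.filter (fun σ : Equiv.Perm (Fin n) => ∀ u, S (σ u) = T u)).card : ℂ) := by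
  have h1 : ∫ z, mono T S z ∂(Measure.pi (fun _ : L => μ)) =
      ∫ z : L → ℂ, ∏ c, (fun (x : ℂ) => x ^ cnt T c *
        ((starRingEnd ℂ) x) ^ cnt S c) (z c) ∂(Measure.pi (fun _ : L => μ)) := by
    refine integral_congr_ae (Filter.Eventually.of_forall fun z => ?_)
    exact mono_eq T S z
  rw [h1, integral_fintype_prod_eq_prod (fun c (x : ℂ) => x ^ cnt T c *
        ((starRingEnd ℂ) x) ^ cnt S c)]
  simp only [hM]
  rw [Fintype.prod_ite_zero, count_perm]
  split_ifs <;> simp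

theorem norm_pow_eq {n : ℕ} (z : L → ℂ) :
    (((∑ c, ‖z c‖ ^ 2) ^ n : ℝ) : ℂ) = ∑ T : Fin n → L, mono T T z := by
  have h1 : (((∑ c, ‖z c‖ ^ 2) ^ n : ℝ) : ℂ) =
      ∏ _u : Fin n, ∑ c : L, (z c * (starRingEnd ℂ) (z c)) := by
    rw [Finset.prod_const, Finset.card_univ, Fintype.card_fin]
    push_cast
    congr 1
    refine Finset.sum_congr rfl fun c _ => ?_
    rw [Complex.mul_conj, Complex.normSq_eq_norm_sq]
    push_cast
    rfl
  rw [h1, Finset.prod_univ_sum, Fintype.piFinset_univ]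
  refine Finset.sum_congr rfl fun T _ => ?_
  rw [Finset.prod_mul_distrib]
  rfl

include hI in
theorem pow_int (n : ℕ) : Integrable (fun z : L → ℂ => (∑ c, ‖z c‖ ^ 2) ^ n)
    (Measure.pi (fun _ : L => μ)) := by
  have h1 : Integrable (fun z : L → ℂ => ∑ T : Fin n → L, mono T T z)
      (Measure.pi (fun _ : L => μ)) :=
    integrable_finsetSum _ fun T _ => mono_int hI T T
  have h2 := h1.re
  refine h2.congr (Filter.Eventually.of_forall fun z => ?_)
  show (RCLike.re (∑ T : Fin n → L, mono T T z) : ℝ) = _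
  rw [← norm_pow_eq]
  exact Complex.ofReal_re _

include hI hM in
theorem pow_integral {n : ℕ} :
    ∫ z : L → ℂ, (∑ c, ‖z c‖ ^ 2) ^ n ∂(Measure.pi (fun _ : L => μ)) =
      ((∑ T : Fin n → L, ∏ c, (cnt T c).factorial : ℕ) : ℝ) := by
  have h1 : ((∫ z : L → ℂ, (∑ c, ‖z c‖ ^ 2) ^ n
      ∂(Measure.pi (fun _ : L => μ)) : ℝ) : ℂ) =
      (((∑ T : Fin n → L, ∏ c, (cnt T c).factorial : ℕ) : ℝ) : ℂ) := by
    rw [← integral_complex_ofReal]
    simp only [norm_pow_eq]
    rw [integral_finsetSum _ fun T _ => mono_int hI T T]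
    push_cast
    refine Finset.sum_congr rfl fun T _ => ?_
    rw [mono_integral hM, count_perm, if_pos (fun _ => rfl)]
    push_cast
    rfl
  exact_mod_cast h1

end gauss

end labels

/-- The local generating function of one vertex, for `m` copies. -/
noncomputable def locm (m : ℕ) (z w : (Fin m → Bool) → ℂ) : ℂ :=
  ∑ T : Fin m → Bool, ∑ S : Fin m → Bool, ∑ T' : Fin m → Bool, ∑ S' : Fin m → Bool,
    if ∀ j, bi (T j) - bi (S j) = bi (T' j) - bi (S' j) then
      (∏ j, sb (T j) * sb (T' j)) *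
        (z T * (starRingEnd ℂ) (z S) * (w T' * (starRingEnd ℂ) (w S'))) else 0

/-- The local labels. -/
abbrev K4 (m : ℕ) : Type :=
  (Fin m → Bool) × (Fin m → Bool) × (Fin m → Bool) × (Fin m → Bool)

/-- The local weight. -/
def cw {m : ℕ} (k : K4 m) : ℂ :=
  if ∀ j, bi (k.1 j) - bi (k.2.1 j) = bi (k.2.2.1 j) - bi (k.2.2.2 j) then
    ∏ j, (sb (k.1 j) * sb (k.2.2.1 j)) else 0

variable {m : ℕ}

theorem locm_eq (z w : (Fin m → Bool) → ℂ) :
    locm m z w = ∑ k : K4 m, cw k * ((z k.1 * (starRingEnd ℂ) (z k.2.1)) *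
      (w k.2.2.1 * (starRingEnd ℂ) (w k.2.2.2))) := by
  have key : ∀ F : K4 m → ℂ, ∑ k, F k = ∑ T : Fin m → Bool, ∑ S : Fin m → Bool,
      ∑ T' : Fin m → Bool, ∑ S' : Fin m → Bool, F (T, S, T', S') := fun F =>
    (Fintype.sum_prod_type F).trans (Finset.sum_congr rfl fun T _ =>
      (Fintype.sum_prod_type (fun y => F (T, y))).trans (Finset.sum_congr rfl fun S _ =>
        (Fintype.sum_prod_type (fun y => F (T, S, y)))))
  rw [key]
  unfold locm cw
  refine Finset.sum_congr rfl fun T _ => Finset.sum_congr rfl fun S _ =>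
    Finset.sum_congr rfl fun T' _ => Finset.sum_congr rfl fun S' _ => ?_
  simp only
  split_ifs
  · ring
  · simp

theorem locm_pow (n : ℕ) (z w : (Fin m → Bool) → ℂ) :
    (locm m z w) ^ n = ∑ κ : Fin n → K4 m, (∏ u, cw (κ u)) *
      (mono (fun u => (κ u).1) (fun u => (κ u).2.1) z *
        mono (fun u => (κ u).2.2.1) (fun u => (κ u).2.2.2) w) := by
  have h1 : (locm m z w) ^ n = ∏ _u : Fin n, locm m z w := by simp
  rw [h1, locm_eq, Finset.prod_univ_sum, Fintype.piFinset_univ]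
  refine Finset.sum_congr rfl fun κ _ => ?_
  rw [Finset.prod_mul_distrib, Finset.prod_mul_distrib, Finset.prod_mul_distrib,
    Finset.prod_mul_distrib]
  rfl

theorem hc_pow (hm : Even m) (n : ℕ) (σ τ : Equiv.Perm (Fin n)) :
    (((hc σ τ) ^ m : ℤ) : ℂ) = ∑ κ : Fin n → K4 m,
      if (∀ u, (κ (σ u)).2.1 = (κ u).1) ∧ (∀ u, (κ (τ u)).2.2.2 = (κ u).2.2.1) then
        ∏ u, cw (κ u) else 0 := by
  have h1 : (hc σ τ) ^ m = ∑ p : Fin m → (Fin n → Bool) × (Fin n → Bool),
      ∏ j, (if df σ (p j).1 = df τ (p j).2 then sg (p j).1 * sg (p j).2 else 0) := by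
    have h0 : ((-1 : ℤ) ^ n) ^ m = 1 := by
      rw [← pow_mul, mul_comm, pow_mul, hm.neg_one_pow, one_pow]
    rw [hc_eq, mul_pow, h0, one_mul, ← Fintype.sum_prod_type']
    have h2 : ∀ a : ℤ, a ^ m = ∏ _j : Fin m, a := by
      intro a
      simp
    rw [h2, Finset.prod_univ_sum, Fintype.piFinset_univ]
  rw [h1, ← Finset.sum_filter]
  push_cast
  refine Finset.sum_bij' (fun p _ => fun u => (fun j => (p j).1 u,
      fun j => (p j).1 (σ.symm u), fun j => (p j).2 u, fun j => (p j).2 (τ.symm u)))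
    (fun κ _ => fun j => (fun u => (κ u).1 j, fun u => (κ u).2.2.1 j)) ?_ ?_ ?_ ?_ ?_
  · intro p _
    refine Finset.mem_filter.2 ⟨Finset.mem_univ _, fun u => ?_, fun u => ?_⟩
    · simp only [Equiv.symm_apply_apply]
    · simp only [Equiv.symm_apply_apply]
  · intro κ _
    exact Finset.mem_univ _
  · intro p _
    rfl
  · intro κ hκ
    obtain ⟨h2, h3⟩ := (Finset.mem_filter.1 hκ).2
    funext u
    have h4 := h2 (σ.symm u)
    have h5 := h3 (τ.symm u)
    rw [Equiv.apply_symm_apply] at h4 h5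
    refine Prod.ext rfl (Prod.ext ?_ (Prod.ext rfl ?_))
    · exact h4.symm
    · exact h5.symm
  · intro p _
    unfold cw
    have h2 : ∀ x : Fin n → Bool, ((sg x : ℤ) : ℂ) = ∏ u, sb (x u) := by
      intro x
      unfold sg sb
      push_cast
      rfl
    have h3 : (∀ j, df σ (p j).1 = df τ (p j).2) ↔
        ∀ u, ∀ j, bi ((p j).1 u) - bi ((p j).1 (σ.symm u)) =
          bi ((p j).2 u) - bi ((p j).2 (τ.symm u)) := by
      constructor
      · intro h u j
        exact congrFun (h j) u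
      · intro h j
        exact funext fun u => h u j
    rw [Fintype.prod_ite_zero, Fintype.prod_ite_zero]
    by_cases h4 : ∀ j, df σ (p j).1 = df τ (p j).2
    · rw [if_pos h4, if_pos (h3.1 h4), Finset.prod_comm]
      refine Finset.prod_congr rfl fun j _ => ?_
      rw [h2, h2, Finset.prod_mul_distrib]
    · rw [if_neg h4, if_neg (fun h => h4 (h3.2 h))]

theorem sum_hc_pow (hm : Even m) (n : ℕ) :
    ((∑ σ : Equiv.Perm (Fin n), ∑ τ : Equiv.Perm (Fin n), (hc σ τ) ^ m : ℤ) : ℂ) =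
      ∑ κ : Fin n → K4 m, (∏ u, cw (κ u)) *
        (((Finset.univ.filter (fun σ : Equiv.Perm (Fin n) =>
          ∀ u, (κ (σ u)).2.1 = (κ u).1)).card : ℂ) *
        ((Finset.univ.filter (fun τ : Equiv.Perm (Fin n) =>
          ∀ u, (κ (τ u)).2.2.2 = (κ u).2.2.1)).card : ℂ)) := by
  rw [Int.cast_sum]
  simp only [Int.cast_sum, hc_pow hm]
  have h1 : ∀ σ : Equiv.Perm (Fin n), (∑ τ : Equiv.Perm (Fin n), ∑ κ : Fin n → K4 m,
      if (∀ u, (κ (σ u)).2.1 = (κ u).1) ∧ (∀ u, (κ (τ u)).2.2.2 = (κ u).2.2.1) then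
        ∏ u, cw (κ u) else 0) = ∑ κ : Fin n → K4 m, ∑ τ : Equiv.Perm (Fin n),
      if (∀ u, (κ (σ u)).2.1 = (κ u).1) ∧ (∀ u, (κ (τ u)).2.2.2 = (κ u).2.2.1) then
        ∏ u, cw (κ u) else 0 := fun σ => Finset.sum_comm
  rw [Finset.sum_congr rfl (fun σ _ => h1 σ), Finset.sum_comm]
  refine Finset.sum_congr rfl fun κ _ => ?_
  have h2 : ∀ σ τ : Equiv.Perm (Fin n),
      (if (∀ u, (κ (σ u)).2.1 = (κ u).1) ∧ (∀ u, (κ (τ u)).2.2.2 = (κ u).2.2.1) then
        ∏ u, cw (κ u) else 0) = (∏ u, cw (κ u)) *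
        ((if (∀ u, (κ (σ u)).2.1 = (κ u).1) then (1 : ℂ) else 0) *
          (if (∀ u, (κ (τ u)).2.2.2 = (κ u).2.2.1) then (1 : ℂ) else 0)) := by
    intro σ τ
    by_cases h3 : ∀ u, (κ (σ u)).2.1 = (κ u).1
    · by_cases h4 : ∀ u, (κ (τ u)).2.2.2 = (κ u).2.2.1
      · rw [if_pos ⟨h3, h4⟩, if_pos h3, if_pos h4, mul_one, mul_one]
      · rw [if_neg (fun h => h4 h.2), if_neg h4, mul_zero, mul_zero]
    · rw [if_neg (fun h => h3 h.1), if_neg h3, zero_mul, mul_zero]
  simp only [h2]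
  simp only [← Finset.mul_sum]
  rw [← Finset.sum_mul, Finset.sum_boole, Finset.sum_boole]

section

variable {μ : Measure ℂ} [IsProbabilityMeasure μ]
  (hI : ∀ a b : ℕ, Integrable (fun z : ℂ => z ^ a * ((starRingEnd ℂ) z) ^ b) μ)
  (hM : ∀ a b : ℕ, ∫ z : ℂ, z ^ a * ((starRingEnd ℂ) z) ^ b ∂μ =
      if a = b then (a.factorial : ℂ) else 0)

include hI hM in
theorem sum_eq_integral (hm : Even m) {n : ℕ} :
    ((∑ σ : Equiv.Perm (Fin n), ∑ τ : Equiv.Perm (Fin n), (hc σ τ) ^ m : ℤ) : ℂ) =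
      ∫ p, (locm m p.1 p.2) ^ n ∂((Measure.pi (fun _ : Fin m → Bool => μ)).prod
        (Measure.pi (fun _ : Fin m → Bool => μ))) := by
  simp only [locm_pow]
  rw [sum_hc_pow hm, integral_finsetSum]
  · refine Finset.sum_congr rfl fun κ _ => ?_
    rw [integral_const_mul, integral_prod_mul, mono_integral hM, mono_integral hM]
  · intro κ _
    exact (Integrable.mul_prod (mono_int hI _ _) (mono_int hI _ _)).const_mul _

include hI hM in
theorem upper_aux (hm : Even m) {n : ℕ} (R : ℝ)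
    (hloc : ∀ z w : (Fin m → Bool) → ℂ,
      ‖locm m z w‖ ≤ R * (∑ c, ‖z c‖ ^ 2) * (∑ c, ‖w c‖ ^ 2)) (hR : 0 ≤ R) :
    ((∑ σ : Equiv.Perm (Fin n), ∑ τ : Equiv.Perm (Fin n), (hc σ τ) ^ m : ℤ) : ℝ) ≤
      R ^ n * ((n.factorial : ℝ) * (n + 1) ^ 2 ^ m) ^ 2 := by
  set P := Measure.pi (fun _ : Fin m → Bool => μ) with hP
  have h1 := sum_eq_integral hI hM hm (n := n)
  have h0 : (0 : ℝ) ≤ ((∑ σ : Equiv.Perm (Fin n), ∑ τ : Equiv.Perm (Fin n),
      (hc σ τ) ^ m : ℤ) : ℝ) :=
    Int.cast_nonneg (Finset.sum_nonneg fun σ _ => Finset.sum_nonneg fun τ _ => hm.pow_nonneg _)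
  have h2 : ((∑ σ : Equiv.Perm (Fin n), ∑ τ : Equiv.Perm (Fin n), (hc σ τ) ^ m : ℤ) : ℝ) =
      ‖((∑ σ : Equiv.Perm (Fin n), ∑ τ : Equiv.Perm (Fin n), (hc σ τ) ^ m : ℤ) : ℂ)‖ := by
    rw [Complex.norm_intCast, abs_of_nonneg h0]
  rw [h2, h1]
  have h3 : Integrable (fun p : ((Fin m → Bool) → ℂ) × ((Fin m → Bool) → ℂ) =>
      R ^ n * ((∑ c, ‖p.1 c‖ ^ 2) ^ n * (∑ c, ‖p.2 c‖ ^ 2) ^ n)) (P.prod P) :=
    (Integrable.mul_prod (pow_int hI n) (pow_int hI n)).const_mul _
  have h4 : ∀ p : ((Fin m → Bool) → ℂ) × ((Fin m → Bool) → ℂ), ‖(locm m p.1 p.2) ^ n‖ ≤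
      R ^ n * ((∑ c, ‖p.1 c‖ ^ 2) ^ n * (∑ c, ‖p.2 c‖ ^ 2) ^ n) := by
    intro p
    rw [norm_pow, ← mul_pow, ← mul_pow, ← mul_assoc]
    exact pow_le_pow_left₀ (norm_nonneg _) (hloc p.1 p.2) n
  refine (norm_integral_le_of_norm_le h3 (Filter.Eventually.of_forall h4)).trans ?_
  rw [integral_const_mul, integral_prod_mul (fun z : (Fin m → Bool) → ℂ => (∑ c, ‖z c‖ ^ 2) ^ n)
    (fun z : (Fin m → Bool) → ℂ => (∑ c, ‖z c‖ ^ 2) ^ n), pow_integral hI hM]
  refine mul_le_mul_of_nonneg_left ?_ (by positivity)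
  have h5 : ((∑ T : Fin n → (Fin m → Bool), ∏ c, (cnt T c).factorial : ℕ) : ℝ) ≤
      (n.factorial : ℝ) * (n + 1) ^ 2 ^ m := by
    have h6 := sum_fact (L := Fin m → Bool) n
    rw [Fintype.card_fun, Fintype.card_bool, Fintype.card_fin] at h6
    exact_mod_cast h6
  rw [sq]
  exact mul_le_mul h5 h5 (Nat.cast_nonneg _) (by positivity)

end

/-- The moment of even order `m` over all pairs of permutations. -/
theorem upper_pow (hm : Even m) (R : ℝ) (hR : 0 ≤ R)
    (hloc : ∀ z w : (Fin m → Bool) → ℂ,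
      ‖locm m z w‖ ≤ R * (∑ c, ‖z c‖ ^ 2) * (∑ c, ‖w c‖ ^ 2)) (n : ℕ) :
    ((∑ σ : Equiv.Perm (Fin n), ∑ τ : Equiv.Perm (Fin n), (hc σ τ) ^ m : ℤ) : ℝ) ≤
      R ^ n * ((n.factorial : ℝ) * (n + 1) ^ 2 ^ m) ^ 2 := by
  obtain ⟨μ, hμ, hI, hM⟩ := exists_gauss
  exact upper_aux hI hM hm R hloc hR

end Pool.Agent.MP94p
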